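import Mathlib

set_option autoImplicit false

namespace Pool.Agent.Helper92.RS

/-- A random substitution on an alphabet `A`: every letter is sent to a nonempty finite set of
nonempty finite words over `A`. -/
structure RandomSubstitution (A : Type) where
  /-- the set of words a letter may be replaced by -/
  img : A → Set (List A)
  finite_img : ∀ a, (img a).Finite
  nonempty_img : ∀ a, (img a).Nonempty
  ne_nil : ∀ a, ∀ w ∈ img a, w ≠ []

namespace RandomSubstitution

variable {A : Type} (θ : RandomSubstitution A)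

/-- The image of a word: `θ(u₀ ⋯ uₙ) = θ(u₀) ⋯ θ(uₙ)`, with set concatenation. -/
def onWord : List A → Set (List A)
  | [] => {[]}
  | a :: u => Set.image2 (fun v w => v ++ w) (θ.img a) (onWord u)

/-- The image of a set of words: the union of the images of its elements. -/
def onSet (U : Set (List A)) : Set (List A) := ⋃ u ∈ U, θ.onWord u

/-- `θ.power p a` is the set `θ^p(a)` of words. -/
def power : ℕ → A → Set (List A)
  | 0, a => {[a]}
  | p + 1, a => θ.onSet (power p a)

/-- A word is legal if it is a subword of an element of some `θ^p(a)`. -/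
def Legal (w : List A) : Prop := ∃ (a : A) (p : ℕ), ∃ u ∈ θ.power p a, w <:+: u

/-- The RS-subshift of `θ`: the bi-infinite sequences all of whose finite subwords are legal. -/
def subshift : Set (ℤ → A) :=
  {x | ∀ (i : ℤ) (N : ℕ), θ.Legal (List.ofFn fun j : Fin N => x (i + (j : ℤ)))}

/-- Compatible: for each letter `a`, all words in `θ(a)` contain each letter equally often. -/
def Compatible [DecidableEq A] : Prop :=
  ∀ a, ∀ u ∈ θ.img a, ∀ v ∈ θ.img a, ∀ b, u.count b = v.count b

/-- Primitive: for some `p ≥ 1`, every letter `a` occurs in some word of `θ^p(b)`, for all `b`. -/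
def Primitive : Prop := ∃ p : ℕ, 1 ≤ p ∧ ∀ a b : A, ∃ w ∈ θ.power p b, a ∈ w

/-- Non-degenerate: some letter has at least two images. -/
def NonDegenerate : Prop := ∃ a : A, 2 ≤ (θ.img a).ncard

/-- The image `θ(y)` of a bi-infinite sequence `y`: all bi-infinite concatenations
`⋯ u₋₁ . u₀ u₁ ⋯` with `uᵢ ∈ θ(yᵢ)`, where `u₀` starts at coordinate `0`
(`s i` is the coordinate where `uᵢ` starts). -/
def biImage (y : ℤ → A) : Set (ℤ → A) :=
  {z | ∃ (u : ℤ → List A) (s : ℤ → ℤ), (∀ i, u i ∈ θ.img (y i)) ∧ s 0 = 0 ∧
    (∀ i, s (i + 1) = s i + ((u i).length : ℤ)) ∧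
    ∀ (i : ℤ) (j : ℕ) (h : j < (u i).length), z (s i + (j : ℤ)) = (u i)[j]}

/-- Recognisable: for every `x` in the subshift there is exactly one pair `(y, k)` with `y` in the
subshift, `0 ≤ k ≤ |θ(y₀)| - 1` and `σ⁻ᵏ(x) ∈ θ(y)`. -/
def Recognisable : Prop :=
  ∀ x ∈ θ.subshift, ∃! q : (ℤ → A) × ℕ, q.1 ∈ θ.subshift ∧
    (∀ w ∈ θ.img (q.1 0), q.2 < w.length) ∧ (fun i => x (i - (q.2 : ℤ))) ∈ θ.biImage q.1

theorem shift_mem {x : ℤ → A} (hx : x ∈ θ.subshift) (k : ℤ) :
    (fun i => x (i + k)) ∈ θ.subshift := by
  intro i N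
  have h := hx (i + k) N
  have e : (fun j : Fin N => x (i + k + (j : ℤ))) = fun j : Fin N => x (i + (j : ℤ) + k) := by
    funext j
    congr 1
    ring
  rw [e] at h
  exact h

/-- The shift `σ(x)ᵢ = xᵢ₊₁` as a homeomorphism of the RS-subshift (with the topology induced
from the product topology on `ℤ → A`). -/
def shift [TopologicalSpace A] : θ.subshift ≃ₜ θ.subshift where
  toFun x := ⟨fun i => x.1 (i + 1), θ.shift_mem x.2 1⟩
  invFun x := ⟨fun i => x.1 (i + (-1)), θ.shift_mem x.2 (-1)⟩
  left_inv x := by
    ext i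
    simp
  right_inv x := by
    ext i
    simp
  continuous_toFun := by
    refine Continuous.subtype_mk ?_ _
    exact continuous_pi fun i => (continuous_apply (i + 1)).comp continuous_subtype_val
  continuous_invFun := by
    refine Continuous.subtype_mk ?_ _
    exact continuous_pi fun i => (continuous_apply (i + (-1))).comp continuous_subtype_val

/-- The automorphism group of the RS-subshift: the homeomorphisms commuting with the shift. -/
def Aut [TopologicalSpace A] : Subgroup (θ.subshift ≃ₜ θ.subshift) :=
  Subgroup.centralizer {θ.shift}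

end RandomSubstitution

end Pool.Agent.Helper92.RS
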