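import Mathlib
import Pool.Agent.Helper92.RandomSubstitution

set_option autoImplicit false

namespace Pool.Agent.Helper92.RS

/-! ### The example -/

section Example

/-- The common length of the inflation words of the underlying substitution on `{0,1}`. -/
def len (n : ℕ) : ℕ := 6 * n + 1 + n * (n + 1) * 2 ^ n

/-- The `s`-th letter of the inflation word of the letter `a` with random choice `c`. -/
def blk (n : ℕ) (a c : Bool) (s : ℕ) : Bool :=
  if s < 2 * n then true
  else if s + 1 = 3 * n then c
  else if s + 1 = 4 * n then !c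
  else if s = 5 * n then a
  else if 5 * n + 2 ≤ s ∧ s < 5 * n + 2 + n * (n + 1) * 2 ^ n ∧ (s - (5 * n + 2)) % (n + 1) < n then
    Nat.testBit ((s - (5 * n + 2)) / (n + 1) / n) ((s - (5 * n + 2)) % (n + 1))
  else false

/-- The bi-infinite image of `z` under the choices `c`. -/
def infl (n : ℕ) (z c : ℤ → Bool) : ℤ → Bool :=
  fun m => blk n (z (m / (len n : ℤ))) (c (m / (len n : ℤ))) (m % (len n : ℤ)).toNat

/-- Group a binary sequence in blocks of length `n`. -/
def grp (n : ℕ) (z : ℤ → Bool) : ℤ → (Fin n → Bool) := fun j i => z (n * j + (i : ℤ))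

/-- The inverse of grouping. -/
def flat (n : ℕ) [NeZero n] (x : ℤ → Fin n → Bool) : ℤ → Bool :=
  fun m => x (m / n) ⟨(m % n).toNat, by
    have h1 : (0 : ℤ) < n := by exact_mod_cast Nat.pos_of_ne_zero (NeZero.ne n)
    have h2 := Int.emod_lt_of_pos m h1
    have h3 := Int.emod_nonneg m h1.ne'
    omega⟩

/-- The word of length `N` of `x` at position `i`. -/
def win {A : Type} (x : ℤ → A) (i : ℤ) (N : ℕ) : List A := List.ofFn fun j : Fin N => x (i + (j : ℤ))

theorem win_length {A : Type} (x : ℤ → A) (i : ℤ) (N : ℕ) : (win x i N).length = N := by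
  simp [win]

theorem win_congr {A : Type} {x y : ℤ → A} {i j : ℤ} {N : ℕ}
    (h : ∀ t : ℤ, 0 ≤ t → t < N → x (i + t) = y (j + t)) : win x i N = win y j N := by
  unfold win
  congr 1
  funext t
  exact h _ (by positivity) (by exact_mod_cast t.2)

theorem win_zero {A : Type} (x : ℤ → A) (i : ℤ) : win x i 0 = [] := by simp [win]

theorem win_succ {A : Type} (x : ℤ → A) (i : ℤ) (N : ℕ) :
    win x i (N + 1) = x i :: win x (i + 1) N := by
  unfold win
  rw [List.ofFn_succ]
  congr 1
  · simp
  · congr 1
    funext j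
    congr 1
    simp
    ring

theorem win_add {A : Type} (x : ℤ → A) (i : ℤ) (M N : ℕ) :
    win x i (M + N) = win x i M ++ win x (i + M) N := by
  induction M generalizing i with
  | zero => simp [win_zero]
  | succ M ih =>
    rw [show M + 1 + N = (M + N) + 1 by ring, win_succ, win_succ, ih (i + 1)]
    simp only [List.cons_append, List.cons.injEq, true_and]
    congr 2
    push_cast
    ring

theorem grp_flat (n : ℕ) [NeZero n] (x : ℤ → Fin n → Bool) : grp n (flat n x) = x := by
  funext j i
  have h1 : (0 : ℤ) < n := by exact_mod_cast Nat.pos_of_ne_zero (NeZero.ne n)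
  have hi : ((i : ℕ) : ℤ) < n := by exact_mod_cast i.2
  have e1 : ((n : ℤ) * j + (i : ℤ)) / n = j := by
    rw [Int.mul_add_ediv_left _ _ h1.ne', Int.ediv_eq_zero_of_lt (by positivity) hi, add_zero]
  have e2 : ((n : ℤ) * j + (i : ℤ)) % n = i := by
    rw [Int.mul_add_emod_self_left, Int.emod_eq_of_lt (by positivity) hi]
  simp only [grp, flat, e1]
  congr 1
  ext
  simp [e2]

theorem flat_grp (n : ℕ) [NeZero n] (z : ℤ → Bool) : flat n (grp n z) = z := by
  funext m
  have h1 : (0 : ℤ) < n := by exact_mod_cast Nat.pos_of_ne_zero (NeZero.ne n)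
  have h3 := Int.emod_nonneg m h1.ne'
  simp only [grp, flat]
  congr 1
  have := Int.mul_ediv_add_emod m n
  omega

theorem len_pos (n : ℕ) : 0 < len n := by unfold len; positivity

theorem infl_apply (n : ℕ) (z c : ℤ → Bool) (q : ℤ) (s : ℕ) (hs : s < len n) :
    infl n z c (q * len n + s) = blk n (z q) (c q) s := by
  have hL : (0 : ℤ) < len n := by exact_mod_cast len_pos n
  have hs' : (s : ℤ) < len n := by exact_mod_cast hs
  have e1 : (q * (len n : ℤ) + s) / (len n : ℤ) = q := by
    rw [mul_comm, Int.mul_add_ediv_left _ _ hL.ne', Int.ediv_eq_zero_of_lt (by positivity) hs', add_zero]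
  have e2 : (q * (len n : ℤ) + s) % (len n : ℤ) = s := by
    rw [mul_comm, Int.mul_add_emod_self_left, Int.emod_eq_of_lt (by positivity) hs']
  simp only [infl, e1, e2, Int.toNat_natCast]

theorem infl_congr (n : ℕ) {z c z' c' : ℤ → Bool} {m m' k : ℤ} (hm : m' = m + k * len n)
    (hz : z' (m / (len n : ℤ) + k) = z (m / (len n : ℤ)))
    (hc : c' (m / (len n : ℤ) + k) = c (m / (len n : ℤ))) : infl n z' c' m' = infl n z c m := by
  have hL : (0 : ℤ) < len n := by exact_mod_cast len_pos n
  subst hm
  unfold infl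
  rw [Int.add_mul_ediv_right _ _ hL.ne', Int.add_mul_emod_self_right, hz, hc]

/-- The example: a random substitution on the alphabet of all binary words of length `n`. -/
def theta (n : ℕ) [NeZero n] : RandomSubstitution (Fin n → Bool) where
  img b := {W | ∃ c : ℤ → Bool, W = win (grp n (infl n (flat n fun _ => b) c)) 0 (len n)}
  finite_img b := (List.finite_length_eq _ (len n)).subset (by
    rintro _ ⟨c, rfl⟩
    exact win_length _ _ _)
  nonempty_img b := ⟨_, fun _ => false, rfl⟩
  ne_nil b := by
    rintro _ ⟨c, rfl⟩ h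
    have h2 := congrArg List.length h
    rw [win_length] at h2
    simp only [List.length_nil] at h2
    exact (len_pos n).ne' h2

theorem win_infl_congr (n : ℕ) [NeZero n] {z c z' c' : ℤ → Bool} {i i' : ℤ} {N : ℕ}
    (hz : ∀ m : ℤ, 0 ≤ m → m < n * N → z' (n * i' + m) = z (n * i + m))
    (hc : ∀ m : ℤ, 0 ≤ m → m < n * N → c' (n * i' + m) = c (n * i + m)) :
    win (grp n (infl n z' c')) (i' * len n) (N * len n)
      = win (grp n (infl n z c)) (i * len n) (N * len n) := by
  have hL : (0 : ℤ) < len n := by exact_mod_cast len_pos n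
  have hn : (0 : ℤ) < n := by exact_mod_cast Nat.pos_of_ne_zero (NeZero.ne n)
  apply win_congr
  intro t ht0 ht1
  funext j
  have hj : ((j : ℕ) : ℤ) < n := by exact_mod_cast j.2
  have hj0 : (0 : ℤ) ≤ ((j : ℕ) : ℤ) := by positivity
  have e : ((n : ℤ) * (i * len n + t) + (j : ℤ)) / (len n : ℤ) = n * i + (n * t + j) / (len n : ℤ) := by
    rw [show (n : ℤ) * (i * len n + t) + (j : ℤ) = (n * t + j) + (n * i) * len n by ring,
      Int.add_mul_ediv_right _ _ hL.ne']
    ring
  have h0 : 0 ≤ ((n : ℤ) * t + j) / (len n : ℤ) := Int.ediv_nonneg (by positivity) hL.le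
  have h1 : ((n : ℤ) * t + j) / (len n : ℤ) < n * N := by
    apply Int.ediv_lt_of_lt_mul hL
    push_cast at ht1
    have : t + 1 ≤ N * len n := ht1
    nlinarith
  simp only [grp]
  apply infl_congr n (k := n * (i' - i))
  · ring
  · rw [e, show (n : ℤ) * i + (n * t + j) / (len n : ℤ) + n * (i' - i)
      = n * i' + (n * t + j) / (len n : ℤ) by ring]
    exact hz _ h0 h1
  · rw [e, show (n : ℤ) * i + (n * t + j) / (len n : ℤ) + n * (i' - i)
      = n * i' + (n * t + j) / (len n : ℤ) by ring]
    exact hc _ h0 h1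

theorem mem_img (n : ℕ) [NeZero n] (z : ℤ → Bool) (i : ℤ) (W : List (Fin n → Bool)) :
    W ∈ (theta n).img (grp n z i) ↔
      ∃ c : ℤ → Bool, W = win (grp n (infl n z c)) (i * len n) (len n) := by
  have hn : (0 : ℤ) < n := by exact_mod_cast Nat.pos_of_ne_zero (NeZero.ne n)
  have key : ∀ c c' : ℤ → Bool, (∀ m : ℤ, 0 ≤ m → m < n → c' m = c (n * i + m)) →
      win (grp n (infl n (flat n fun _ => grp n z i) c')) 0 (len n)
        = win (grp n (infl n z c)) (i * len n) (len n) := by
    intro c c' h
    have := win_infl_congr n (z := z) (c := c) (z' := flat n fun _ => grp n z i) (c' := c')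
      (i := i) (i' := 0) (N := 1) ?_ ?_
    · simpa using this
    · intro m hm0 hm1
      have hm1' : m < n := by simpa using hm1
      simp only [flat, grp, mul_zero, zero_add]
      congr 1
      rw [Int.emod_eq_of_lt hm0 hm1', Int.toNat_of_nonneg hm0]
    · intro m hm0 hm1
      have hm1' : m < n := by simpa using hm1
      simpa using h m hm0 hm1'
  constructor
  · rintro ⟨c', rfl⟩
    refine ⟨fun m => c' (m - n * i), ?_⟩
    apply key
    intro m _ _
    congr 1
    ring
  · rintro ⟨c, rfl⟩
    refine ⟨fun m => c (n * i + m), ?_⟩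
    symm
    apply key
    intro m _ _
    rfl

theorem mem_onWord (n : ℕ) [NeZero n] (z : ℤ → Bool) (i : ℤ) (N : ℕ) (W : List (Fin n → Bool)) :
    W ∈ (theta n).onWord (win (grp n z) i N) ↔
      ∃ c : ℤ → Bool, W = win (grp n (infl n z c)) (i * len n) (N * len n) := by
  have hn : (0 : ℤ) < n := by exact_mod_cast Nat.pos_of_ne_zero (NeZero.ne n)
  induction N generalizing i W with
  | zero =>
    simp [win_zero, RandomSubstitution.onWord]
  | succ N ih =>
    rw [win_succ]
    simp only [RandomSubstitution.onWord, Set.mem_image2]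
    constructor
    · rintro ⟨v, hv, w, hw, rfl⟩
      obtain ⟨c1, rfl⟩ := (mem_img n z i v).1 hv
      obtain ⟨c2, rfl⟩ := (ih (i + 1) w).1 hw
      refine ⟨fun m => if m < n * (i + 1) then c1 m else c2 m, ?_⟩
      rw [show (N + 1) * len n = len n + N * len n by ring, win_add]
      congr 1
      · have := win_infl_congr n (z := z) (c := fun m => if m < n * (i + 1) then c1 m else c2 m)
          (z' := z) (c' := c1) (i := i) (i' := i) (N := 1) (fun _ _ _ => rfl) ?_
        · simpa using this
        · intro m hm0 hm1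
          have hm1' : m < n := by simpa using hm1
          have : (n : ℤ) * i + m < n * (i + 1) := by linarith
          simp only [this, if_true]
      · rw [show i * (len n : ℤ) + len n = (i + 1) * len n by ring]
        apply win_infl_congr n (fun _ _ _ => rfl)
        intro m hm0 hm1
        have : ¬ ((n : ℤ) * (i + 1) + m < n * (i + 1)) := by linarith
        simp only [this, if_false]
    · rintro ⟨c, rfl⟩
      refine ⟨_, (mem_img n z i _).2 ⟨c, rfl⟩, _, (ih (i + 1) _).2 ⟨c, rfl⟩, ?_⟩
      rw [show (N + 1) * len n = len n + N * len n by ring, win_add]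
      congr 2
      ring

theorem power_eq (n : ℕ) [NeZero n] (p : ℕ) (b : Fin n → Bool) (W : List (Fin n → Bool))
    (hW : W ∈ (theta n).power p b) : ∃ z : ℤ → Bool, W = win (grp n z) 0 (len n ^ p) := by
  induction p generalizing W with
  | zero =>
    simp only [RandomSubstitution.power, Set.mem_singleton_iff] at hW
    subst hW
    refine ⟨flat n fun _ => b, ?_⟩
    rw [grp_flat]
    simp [win]
  | succ p ih =>
    simp only [RandomSubstitution.power, RandomSubstitution.onSet, Set.mem_iUnion] at hW
    obtain ⟨V, hV, hWV⟩ := hW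
    obtain ⟨z, rfl⟩ := ih V hV
    obtain ⟨c, rfl⟩ := (mem_onWord n z 0 _ W).1 hWV
    refine ⟨infl n z c, ?_⟩
    rw [pow_succ]
    simp


theorem win_inj {A : Type} {x y : ℤ → A} {i j : ℤ} {N : ℕ} (h : win x i N = win y j N) (t : ℤ)
    (h0 : 0 ≤ t) (h1 : t < N) : x (i + t) = y (j + t) := by
  unfold win at h
  have h2 := List.ofFn_injective h
  have h3 := congrFun h2 ⟨t.toNat, by omega⟩
  simp only [Int.toNat_of_nonneg h0] at h3
  exact h3

theorem grp_win_inj (n : ℕ) [NeZero n] {z z' : ℤ → Bool} {i j : ℤ} {N : ℕ}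
    (h : win (grp n z) i N = win (grp n z') j N) (m : ℤ) (h0 : 0 ≤ m) (h1 : m < n * N) :
    z (n * i + m) = z' (n * j + m) := by
  have hn : (0 : ℤ) < n := by exact_mod_cast Nat.pos_of_ne_zero (NeZero.ne n)
  have h2 := win_inj h (m / n) (Int.ediv_nonneg h0 hn.le)
    (by apply Int.ediv_lt_of_lt_mul hn; linarith)
  have h3 := Int.emod_nonneg m hn.ne'
  have h4 := Int.emod_lt_of_pos m hn
  have h5 := congrFun h2 ⟨(m % n).toNat, by omega⟩
  simp only [grp, Int.toNat_of_nonneg h3] at h5
  have e := Int.mul_ediv_add_emod m n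
  rw [show (n : ℤ) * (i + m / n) + m % n = n * i + m by linarith,
    show (n : ℤ) * (j + m / n) + m % n = n * j + m by linarith] at h5
  exact h5

theorem exists_pos (n : ℕ) (hn : 2 ≤ n) (z c : ℤ → Bool) (b : Fin n → Bool) (r : ℤ) :
    ∃ s : ℤ, 0 ≤ s ∧ s + n ≤ len n ∧ s ≡ r [ZMOD n] ∧
      ∀ i : Fin n, infl n z c (s + (i : ℤ)) = b i := by
  have hn0 : (0 : ℤ) < n := by exact_mod_cast (by omega : 0 < n)
  obtain ⟨ρ, hρ⟩ : ∃ ρ : ℕ, (ρ : ℤ) = (r - 2) % n :=
    ⟨((r - 2) % n).toNat, Int.toNat_of_nonneg (Int.emod_nonneg _ hn0.ne')⟩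
  have hρn : ρ < n := by
    have := Int.emod_lt_of_pos (r - 2) hn0
    omega
  set q := Nat.ofBits b with hq
  have hq2 : q < 2 ^ n := Nat.ofBits_lt_two_pow b
  set t := n * q + ρ with ht
  have htq : t / n = q := by
    rw [ht, Nat.mul_add_div (by omega), Nat.div_eq_of_lt hρn, add_zero]
  have ht1 : (t + 1) * (n + 1) ≤ n * (n + 1) * 2 ^ n := by
    have : t + 1 ≤ n * 2 ^ n := by
      have : n * (q + 1) ≤ n * 2 ^ n := Nat.mul_le_mul_left _ hq2
      nlinarith
    calc (t + 1) * (n + 1) ≤ (n * 2 ^ n) * (n + 1) := Nat.mul_le_mul_right _ this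
      _ = n * (n + 1) * 2 ^ n := by ring
  have hlen : 5 * n + 2 + t * (n + 1) + n < len n := by
    unfold len
    nlinarith
  refine ⟨((5 * n + 2 + t * (n + 1) : ℕ) : ℤ), by positivity, ?_, ?_, ?_⟩
  · exact_mod_cast hlen.le
  · have e : ((5 * n + 2 + t * (n + 1) : ℕ) : ℤ) - (ρ + 2) = n * (5 + q * (n + 1) + ρ) := by
      rw [ht]
      push_cast
      ring
    have e1 : ((5 * n + 2 + t * (n + 1) : ℕ) : ℤ) ≡ ρ + 2 [ZMOD n] :=
      ((Int.modEq_iff_dvd).2 ⟨_, e⟩).symm
    have e2 : (ρ : ℤ) ≡ r - 2 [ZMOD n] := by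
      rw [hρ]
      exact Int.mod_modEq _ _
    have e3 := e2.add_right 2
    rw [sub_add_cancel] at e3
    exact e1.trans e3
  · intro i
    have hi := i.2
    have e0 : ((5 * n + 2 + t * (n + 1) : ℕ) : ℤ) + ((i : ℕ) : ℤ)
        = 0 * (len n : ℤ) + ((5 * n + 2 + t * (n + 1) + i : ℕ) : ℤ) := by push_cast; ring
    rw [e0, infl_apply n z c 0 _ (by omega)]
    unfold blk
    have e1 : 5 * n + 2 + t * (n + 1) + (i : ℕ) - (5 * n + 2) = (n + 1) * t + i := by
      have : 5 * n + 2 + t * (n + 1) + (i : ℕ) = (5 * n + 2) + ((n + 1) * t + i) := by ring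
      rw [this, Nat.add_sub_cancel_left]
    have e2 : ((n + 1) * t + (i : ℕ)) % (n + 1) = i := by
      rw [Nat.mul_add_mod, Nat.mod_eq_of_lt (by omega)]
    have e3 : ((n + 1) * t + (i : ℕ)) / (n + 1) = t := by
      rw [Nat.mul_add_div (by omega), Nat.div_eq_of_lt (by omega), add_zero]
    rw [if_neg (by omega), if_neg (by omega), if_neg (by omega), if_neg (by omega), e1, e2, e3, htq,
      if_pos ⟨by omega, by nlinarith, hi⟩, hq, Nat.testBit_ofBits_lt b i hi]

theorem power_one (n : ℕ) [NeZero n] (b : Fin n → Bool) : (theta n).power 1 b = (theta n).img b := by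
  ext W
  simp [RandomSubstitution.power, RandomSubstitution.onSet, RandomSubstitution.onWord]

theorem key (n : ℕ) [NeZero n] (hn : 2 ≤ n) (p : ℕ) (b : Fin n → Bool) (z : ℤ → Bool)
    (h : win (grp n z) 0 (len n ^ p) ∈ (theta n).power p b) (r : ℤ) :
    ∃ (b' : Fin n → Bool) (z' : ℤ → Bool) (s : ℤ),
      win (grp n z') 0 (len n ^ (p + 1)) ∈ (theta n).power (p + 1) b' ∧ 0 ≤ s ∧
      s + n * (len n : ℤ) ^ p ≤ n * (len n : ℤ) ^ (p + 1) ∧ s ≡ r [ZMOD n] ∧
      ∀ m : ℤ, 0 ≤ m → m < n * (len n : ℤ) ^ p → z' (m + s) = z m := by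
  have hn0 : (0 : ℤ) < n := by exact_mod_cast (by omega : 0 < n)
  have hL : (0 : ℤ) < len n := by exact_mod_cast len_pos n
  induction p generalizing z r with
  | zero =>
    set c : ℤ → Bool := fun _ => false
    obtain ⟨s, hs0, hs1, hs2, hs3⟩ := exists_pos n hn (flat n fun _ => b) c (grp n z 0) r
    refine ⟨b, infl n (flat n fun _ => b) c, s, ?_, hs0, ?_, hs2, ?_⟩
    · rw [zero_add, power_one, pow_one]
      exact ⟨c, rfl⟩
    · rw [zero_add, pow_zero, pow_one]
      nlinarith
    · intro m hm0 hm1
      rw [pow_zero, mul_one] at hm1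
      have h1 := hs3 ⟨m.toNat, by omega⟩
      simp only [Int.toNat_of_nonneg hm0, grp, mul_zero, zero_add] at h1
      rw [add_comm m s]
      exact h1
  | succ p ih =>
    have h' := h
    simp only [RandomSubstitution.power, RandomSubstitution.onSet, Set.mem_iUnion] at h'
    obtain ⟨V, hV, hWV⟩ := h'
    obtain ⟨v, rfl⟩ := power_eq n p b V hV
    obtain ⟨c, hc⟩ := (mem_onWord n v 0 _ _).1 hWV
    obtain ⟨b', v', s, h1, h2, h3, h4, h5⟩ := ih v hV r
    refine ⟨b', infl n v' (fun m => c (m - s)), s * len n, ?_, by positivity, ?_, ?_, ?_⟩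
    · have : win (grp n (infl n v' (fun m => c (m - s)))) 0 (len n ^ (p + 1 + 1)) ∈
          (theta n).onWord (win (grp n v') 0 (len n ^ (p + 1))) := by
        rw [mem_onWord]
        refine ⟨fun m => c (m - s), ?_⟩
        rw [zero_mul, ← pow_succ]
      simp only [RandomSubstitution.power, RandomSubstitution.onSet, Set.mem_iUnion] at h1 ⊢
      exact ⟨_, h1, this⟩
    · have := mul_le_mul_of_nonneg_right h3 hL.le
      calc s * (len n : ℤ) + n * (len n : ℤ) ^ (p + 1) = (s + n * (len n : ℤ) ^ p) * len n := by ring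
        _ ≤ (n * (len n : ℤ) ^ (p + 1)) * len n := this
        _ = n * (len n : ℤ) ^ (p + 1 + 1) := by ring
    · have hl : (len n : ℤ) ≡ 1 [ZMOD n] := by
        refine ((Int.modEq_iff_dvd).2 ⟨(6 + (n + 1) * 2 ^ n : ℤ), ?_⟩).symm
        unfold len
        push_cast
        ring
      have := h4.mul hl
      rwa [mul_one] at this
    · intro m hm0 hm1
      have hd0 : 0 ≤ m / (len n : ℤ) := Int.ediv_nonneg hm0 hL.le
      have hd1 : m / (len n : ℤ) < n * (len n : ℤ) ^ p := by
        apply Int.ediv_lt_of_lt_mul hL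
        calc m < n * (len n : ℤ) ^ (p + 1) := hm1
          _ = n * (len n : ℤ) ^ p * len n := by ring
      have e1 : infl n v' (fun m => c (m - s)) (m + s * len n) = infl n v c m := by
        apply infl_congr n rfl
        · exact h5 _ hd0 hd1
        · simp
      have e2 := grp_win_inj n hc m hm0 (by
        push_cast
        exact hm1)
      simp only [mul_zero, zero_mul, zero_add] at e2
      rw [e1, e2]

theorem infix_win {A : Type} {w : List A} {y : ℤ → A} {i : ℤ} {M : ℕ} (h : w <:+: win y i M) :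
    ∃ j : ℕ, j + w.length ≤ M ∧ w = win y (i + j) w.length := by
  obtain ⟨s, t, hst⟩ := h
  have hlen : s.length + w.length + t.length = M := by
    have := congrArg List.length hst
    rw [win_length] at this
    simpa [add_assoc] using this
  subst hlen
  rw [win_add, win_add] at hst
  have h1 := List.append_inj hst (by simp [win_length])
  have h2 := List.append_inj h1.1 (by simp [win_length])
  exact ⟨s.length, by omega, h2.2⟩

theorem win_infix {A : Type} (y : ℤ → A) (i : ℤ) {j N M : ℕ} (h : j + N ≤ M) :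
    win y (i + j) N <:+: win y i M := by
  obtain ⟨d, rfl⟩ := Nat.exists_eq_add_of_le h
  rw [win_add, win_add]
  exact ⟨_, _, rfl⟩

theorem rot_mem (n : ℕ) [NeZero n] (hn : 2 ≤ n) {z : ℤ → Bool}
    (hz : grp n z ∈ (theta n).subshift) (k : ℤ) :
    grp n (fun m => z (m + k)) ∈ (theta n).subshift := by
  have hn0 : (0 : ℤ) < n := by exact_mod_cast (by omega : 0 < n)
  have hL : (0 : ℤ) < len n := by exact_mod_cast len_pos n
  intro i N
  change (theta n).Legal (win (grp n fun m => z (m + k)) i N)
  have h := hz (i + k / n) (N + 1)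
  change (theta n).Legal (win (grp n z) (i + k / n) (N + 1)) at h
  obtain ⟨a, p, u, hu, hin⟩ := h
  obtain ⟨v, rfl⟩ := power_eq n p a u hu
  obtain ⟨j, hj, hw⟩ := infix_win hin
  rw [win_length] at hj hw
  obtain ⟨b', v', s, h1, h2, h3, h4, h5⟩ := key n hn p a v hu (-(k % n))
  have hk0 := Int.emod_nonneg k hn0.ne'
  have hk1 := Int.emod_lt_of_pos k hn0
  have hk := Int.mul_ediv_add_emod k n
  obtain ⟨J', hJ'⟩ : ∃ J' : ℤ, s + k % n = n * J' := by
    have := (Int.modEq_iff_dvd).1 h4
    obtain ⟨d, hd⟩ := this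
    exact ⟨-d, by linarith⟩
  have hJ'0 : 0 ≤ J' := by
    by_contra hneg
    push Not at hneg
    nlinarith
  obtain ⟨J, rfl⟩ : ∃ J : ℕ, (J : ℤ) = J' := ⟨J'.toNat, Int.toNat_of_nonneg hJ'0⟩
  have hjj : (j : ℤ) + (N + 1) ≤ (len n : ℤ) ^ p := by exact_mod_cast hj
  refine ⟨b', p + 1, _, h1, ?_⟩
  have hfin : J + j + N ≤ len n ^ (p + 1) := by
    have h6 : (n : ℤ) * (J + j + N) ≤ n * (len n : ℤ) ^ (p + 1) := by
      calc (n : ℤ) * (J + j + N) = s + k % n + n * (j + N) := by rw [hJ']; ring
        _ ≤ s + n * (j + (N + 1)) := by nlinarith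
        _ ≤ s + n * (len n : ℤ) ^ p := by nlinarith
        _ ≤ _ := h3
    have := le_of_mul_le_mul_left h6 hn0
    exact_mod_cast this
  have hwin : win (grp n fun m => z (m + k)) i N = win (grp n v') (0 + ((J + j : ℕ) : ℤ)) N := by
    apply win_congr
    intro t ht0 ht1
    funext l
    have hl0 : (0 : ℤ) ≤ ((l : ℕ) : ℤ) := by positivity
    have hl : ((l : ℕ) : ℤ) < n := by exact_mod_cast l.2
    simp only [grp]
    have e1 := grp_win_inj n hw (k % n + n * t + l) (by positivity) (by push_cast; nlinarith)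
    have e2 := h5 (n * j + k % n + n * t + l) (by positivity) (by nlinarith)
    rw [show (n : ℤ) * (i + t) + l + k = n * (i + k / n) + (k % n + n * t + l) by linarith, e1,
      show (n : ℤ) * (0 + j) + (k % n + n * t + l) = n * j + k % n + n * t + l by ring, ← e2]
    congr 1
    push_cast
    linarith
  rw [hwin]
  exact win_infix _ _ hfin

/-- The `k`-fold one-letter shift of the underlying binary sequence, on the subshift. -/
def rot (n : ℕ) [NeZero n] (hn : 2 ≤ n) (k : ℤ) (x : (theta n).subshift) : (theta n).subshift :=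
  ⟨grp n fun m => flat n x.1 (m + k), rot_mem n hn (by rw [grp_flat]; exact x.2) k⟩

theorem rot_rot (n : ℕ) [NeZero n] (hn : 2 ≤ n) (k l : ℤ) (x : (theta n).subshift) :
    rot n hn k (rot n hn l x) = rot n hn (k + l) x := by
  apply Subtype.ext
  simp only [rot, flat_grp]
  congr 1
  funext m
  congr 1
  ring

theorem rot_zero (n : ℕ) [NeZero n] (hn : 2 ≤ n) (x : (theta n).subshift) :
    rot n hn 0 x = x := by
  apply Subtype.ext
  simp [rot, grp_flat]

theorem rot_self (n : ℕ) [NeZero n] (hn : 2 ≤ n) (x : (theta n).subshift) :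
    rot n hn n x = (theta n).shift x := by
  apply Subtype.ext
  have e : (fun i => x.1 (i + 1)) = grp n (fun m => flat n x.1 (m + n)) := by
    conv_lhs => rw [← grp_flat n x.1]
    funext j i
    simp only [grp]
    congr 1
    ring
  rw [rot]
  exact e.symm

theorem rot_continuous (n : ℕ) [NeZero n] (hn : 2 ≤ n) (k : ℤ) : Continuous (rot n hn k) := by
  refine Continuous.subtype_mk ?_ _
  refine continuous_pi fun j => continuous_pi fun i => ?_
  have h : ∀ (m : ℤ) (l : Fin n), Continuous fun x : (theta n).subshift => x.1 m l := by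
    intro m l
    exact (continuous_apply l).comp ((continuous_apply m).comp continuous_subtype_val)
  exact h _ _

/-- The root of the shift: the one-letter shift of the underlying binary sequence. -/
def root (n : ℕ) [NeZero n] (hn : 2 ≤ n) : (theta n).subshift ≃ₜ (theta n).subshift where
  toFun := rot n hn 1
  invFun := rot n hn (-1)
  left_inv x := by rw [rot_rot, neg_add_cancel, rot_zero]
  right_inv x := by rw [rot_rot, add_neg_cancel, rot_zero]
  continuous_toFun := rot_continuous n hn 1
  continuous_invFun := rot_continuous n hn (-1)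

theorem root_pow_apply (n : ℕ) [NeZero n] (hn : 2 ≤ n) (k : ℕ) (x : (theta n).subshift) :
    ((root n hn) ^ k) x = rot n hn k x := by
  induction k generalizing x with
  | zero => simp [rot_zero]
  | succ k ih =>
    rw [pow_succ, Homeomorph.mul_apply, ih]
    change rot n hn k (rot n hn 1 x) = _
    rw [rot_rot]
    push_cast
    rfl

theorem root_pow (n : ℕ) [NeZero n] (hn : 2 ≤ n) : (root n hn) ^ n = (theta n).shift := by
  ext1 x
  rw [root_pow_apply, rot_self]

theorem root_mem_Aut (n : ℕ) [NeZero n] (hn : 2 ≤ n) : root n hn ∈ (theta n).Aut := by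
  rw [RandomSubstitution.Aut, Subgroup.mem_centralizer_singleton_iff]
  rw [← root_pow n hn, ← pow_succ, ← pow_succ']

theorem theta_primitive (n : ℕ) [NeZero n] (hn : 2 ≤ n) : (theta n).Primitive := by
  have hn0 : (0 : ℤ) < n := by exact_mod_cast (by omega : 0 < n)
  have hL : (0 : ℤ) < len n := by exact_mod_cast len_pos n
  refine ⟨1, le_rfl, fun a b => ?_⟩
  obtain ⟨s, hs0, hs1, hs2, hs3⟩ := exists_pos n hn (flat n fun _ => b) (fun _ => false) a 0
  rw [power_one]
  refine ⟨_, ⟨fun _ => false, rfl⟩, ?_⟩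
  obtain ⟨d, hd⟩ := (Int.modEq_zero_iff_dvd).1 hs2
  have hd0 : 0 ≤ d := by
    by_contra hneg
    push Not at hneg
    nlinarith
  have hd1 : d < len n := by nlinarith
  unfold win
  rw [List.mem_ofFn]
  refine ⟨⟨d.toNat, by omega⟩, ?_⟩
  funext i
  simp only [grp, Int.toNat_of_nonneg hd0, zero_add]
  rw [← hd]
  exact hs3 i

theorem blk_false {n : ℕ} {a c : Bool} {s : ℕ} (h0 : 2 * n ≤ s) (h1 : s + 2 ≤ 5 * n)
    (h2 : s + 1 ≠ 3 * n) (h3 : s + 1 ≠ 4 * n) : blk n a c s = false := by
  unfold blk
  rw [if_neg (by omega), if_neg h2, if_neg h3, if_neg (by omega), if_neg (by omega)]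

theorem blk_fst {n : ℕ} (hn : 2 ≤ n) (a c : Bool) : blk n a c (3 * n - 1) = c := by
  unfold blk
  rw [if_neg (by omega), if_pos (by omega)]

theorem blk_snd {n : ℕ} (hn : 2 ≤ n) (a c : Bool) : blk n a c (4 * n - 1) = !c := by
  unfold blk
  rw [if_neg (by omega), if_neg (by omega), if_pos (by omega)]

theorem blk_congr {n : ℕ} {a c c' : Bool} {s : ℕ}
    (h2 : s + 1 ≠ 3 * n) (h3 : s + 1 ≠ 4 * n) : blk n a c s = blk n a c' s := by
  unfold blk
  rw [if_neg h2, if_neg h3, if_neg h2, if_neg h3]

theorem len_gt (n : ℕ) : 6 * n < len n := by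
  unfold len
  have : 0 ≤ n * (n + 1) * 2 ^ n := Nat.zero_le _
  omega

theorem swap_perm (n : ℕ) [NeZero n] (hn : 2 ≤ n) (z c c' : ℤ → Bool) (i : ℕ) (hi : i < n)
    (h : c i = false) (h' : c' i = true) (hcc : ∀ m : ℤ, m ≠ i → c m = c' m) :
    (win (grp n (infl n z c)) 0 (len n)).Perm (win (grp n (infl n z c')) 0 (len n)) := by
  have hn0 : (0 : ℤ) < n := by exact_mod_cast (by omega : 0 < n)
  have hL : (0 : ℤ) < len n := by exact_mod_cast len_pos n
  have hlen := len_gt n
  obtain ⟨P, hP⟩ : ∃ P : ℕ, P = i * len n + (3 * n - 1) := ⟨_, rfl⟩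
  set j := P / n with hj
  set o := P % n with ho
  have hPjo : n * j + o = P := Nat.div_add_mod P n
  have hon : o < n := Nat.mod_lt _ (by omega)
  -- values at the two special positions and near them
  have val : ∀ (d : Bool) (s : ℕ) (e : ℤ → Bool), s < len n → e i = d →
      infl n z e (i * len n + s) = blk n (z i) d s := by
    intro d s e hs he
    rw [infl_apply n z e i s hs, he]
  have v1 : infl n z c P = false := by
    rw [hP]; push_cast
    have := val false (3 * n - 1) c (by omega) h
    rw [blk_fst hn] at this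
    exact_mod_cast this
  have v2 : infl n z c' P = true := by
    rw [hP]; push_cast
    have := val true (3 * n - 1) c' (by omega) h'
    rw [blk_fst hn] at this
    exact_mod_cast this
  have v3 : infl n z c (P + n) = true := by
    have := val false (4 * n - 1) c (by omega) h
    rw [blk_snd hn] at this
    have e : (P : ℤ) + n = i * len n + ((4 * n - 1 : ℕ) : ℤ) := by
      rw [hP]; push_cast [Nat.cast_sub (by omega : 1 ≤ 3 * n), Nat.cast_sub (by omega : 1 ≤ 4 * n)]; ring
    rw [e]
    simpa using this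
  have v4 : infl n z c' (P + n) = false := by
    have := val true (4 * n - 1) c' (by omega) h'
    rw [blk_snd hn] at this
    have e : (P : ℤ) + n = i * len n + ((4 * n - 1 : ℕ) : ℤ) := by
      rw [hP]; push_cast [Nat.cast_sub (by omega : 1 ≤ 3 * n), Nat.cast_sub (by omega : 1 ≤ 4 * n)]; ring
    rw [e]
    simpa using this
  have v5 : ∀ (e : ℤ → Bool) (m : ℤ), P - (n - 1) ≤ m → m ≤ P + n + (n - 1) → m ≠ P → m ≠ P + n →
      infl n z e m = false := by
    intro e m h1 h2 h3 h4
    obtain ⟨s, hs⟩ : ∃ s : ℕ, m = i * len n + s := by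
      refine ⟨(m - i * len n).toNat, ?_⟩
      rw [Int.toNat_of_nonneg]
      · ring
      · rw [hP] at h1
        push_cast [Nat.cast_sub (by omega : 1 ≤ 3 * n)] at h1
        linarith
    rw [hP] at h1 h2 h3 h4
    push_cast [Nat.cast_sub (by omega : 1 ≤ 3 * n)] at h1 h2 h3 h4
    subst hs
    have g1 : 2 * n ≤ s := by omega
    have g2 : s + 2 ≤ 5 * n := by omega
    have g3 : s + 1 ≠ 3 * n := by omega
    have g4 : s + 1 ≠ 4 * n := by omega
    rw [infl_apply n z e i s (by omega)]
    exact blk_false g1 g2 g3 g4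
  have v6 : ∀ m : ℤ, m ≠ P → m ≠ P + n → infl n z c' m = infl n z c m := by
    intro m h1 h2
    unfold infl
    by_cases hq : m / (len n : ℤ) = i
    · rw [hq]
      apply blk_congr
      · intro hh
        apply h1
        have e1 := Int.mul_ediv_add_emod m (len n)
        have e2 := Int.emod_nonneg m hL.ne'
        rw [hq] at e1
        rw [hP]
        push_cast [Nat.cast_sub (by omega : 1 ≤ 3 * n)]
        have : ((m % (len n : ℤ)).toNat : ℤ) = m % (len n : ℤ) := Int.toNat_of_nonneg e2
        have hh' : (((m % (len n : ℤ)).toNat : ℕ) : ℤ) + 1 = 3 * n := by exact_mod_cast hh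
        rw [this] at hh'
        linarith
      · intro hh
        apply h2
        have e1 := Int.mul_ediv_add_emod m (len n)
        have e2 := Int.emod_nonneg m hL.ne'
        rw [hq] at e1
        rw [hP]
        push_cast [Nat.cast_sub (by omega : 1 ≤ 3 * n)]
        have : ((m % (len n : ℤ)).toNat : ℤ) = m % (len n : ℤ) := Int.toNat_of_nonneg e2
        have hh' : (((m % (len n : ℤ)).toNat : ℕ) : ℤ) + 1 = 4 * n := by exact_mod_cast hh
        rw [this] at hh'
        linarith
    · rw [hcc _ hq]
  have hjL : j + 1 < len n := by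
    have h1 : P + n < n * len n := by
      have h3 : (i + 1) * len n ≤ n * len n := Nat.mul_le_mul_right _ hi
      have h4 : (i + 1) * len n = i * len n + len n := by ring
      omega
    have h2 : n * (j + 1) < n * len n := by nlinarith
    exact Nat.lt_of_mul_lt_mul_left h2
  have hfun : (fun t : Fin (len n) => grp n (infl n z c') (0 + (t : ℤ)))
      = (fun t : Fin (len n) => grp n (infl n z c) (0 + (t : ℤ))) ∘
        (Equiv.swap (⟨j, by omega⟩ : Fin (len n)) ⟨j + 1, hjL⟩) := by
    funext t l
    have hl := l.2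
    simp only [Function.comp_apply, grp, zero_add]
    by_cases ht1 : t = ⟨j, by omega⟩
    · rw [ht1, Equiv.swap_apply_left]
      dsimp only
      by_cases hlo : (l : ℕ) = o
      · rw [show ((n : ℤ) * ((j : ℕ) : ℤ) + ((l : ℕ) : ℤ)) = P by rw [hlo]; exact_mod_cast hPjo,
          show ((n : ℤ) * ((j + 1 : ℕ) : ℤ) + ((l : ℕ) : ℤ)) = P + n by
            rw [hlo]; push_cast; have : (n : ℤ) * j + o = P := by exact_mod_cast hPjo
            linarith, v2, v3]
      · have hPjo' : (n : ℤ) * j + o = P := by exact_mod_cast hPjo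
        rw [v5 c' _ (by omega) (by omega) (by omega) (by omega), v5 c _ _ _ _ _]
        all_goals push_cast
        all_goals ring_nf
        all_goals omega
    · by_cases ht2 : t = ⟨j + 1, hjL⟩
      · rw [ht2, Equiv.swap_apply_right]
        dsimp only
        have hPjo' : (n : ℤ) * j + o = P := by exact_mod_cast hPjo
        by_cases hlo : (l : ℕ) = o
        · rw [show ((n : ℤ) * ((j : ℕ) : ℤ) + ((l : ℕ) : ℤ)) = P by rw [hlo]; exact_mod_cast hPjo,
            show ((n : ℤ) * ((j + 1 : ℕ) : ℤ) + ((l : ℕ) : ℤ)) = P + n by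
              rw [hlo]; push_cast; linarith, v4, v1]
        · rw [v5 c _ (by omega) (by omega) (by omega) (by omega), v5 c' _ _ _ _ _]
          all_goals push_cast
          all_goals ring_nf
          all_goals omega
      · rw [Equiv.swap_apply_of_ne_of_ne ht1 ht2]
        apply v6
        · intro hh
          apply ht1
          ext
          have h1 : n * (t : ℕ) + (l : ℕ) = P := by exact_mod_cast hh
          dsimp only
          rw [hj, ← h1, Nat.mul_add_div (by omega), Nat.div_eq_of_lt hl, add_zero]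
        · intro hh
          apply ht2
          ext
          have h1 : n * (t : ℕ) + (l : ℕ) = P + n := by exact_mod_cast hh
          dsimp only
          have h2 : (P + n) / n = j + 1 := by
            rw [Nat.add_div_right _ (by omega)]
          rw [← h2, ← h1, Nat.mul_add_div (by omega), Nat.div_eq_of_lt hl, add_zero]
  unfold win
  rw [hfun]
  exact (Equiv.Perm.ofFn_comp_perm _ _).symm

theorem perm_all (n : ℕ) [NeZero n] (hn : 2 ≤ n) (z c c' : ℤ → Bool) :
    (win (grp n (infl n z c)) 0 (len n)).Perm (win (grp n (infl n z c')) 0 (len n)) := by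
  have step : ∀ k : ℕ, k ≤ n → (win (grp n (infl n z c)) 0 (len n)).Perm
      (win (grp n (infl n z (fun m => if 0 ≤ m ∧ m < (k : ℤ) then c' m else c m))) 0 (len n)) := by
    intro k hk
    induction k with
    | zero =>
      have e : (fun m : ℤ => if 0 ≤ m ∧ m < ((0 : ℕ) : ℤ) then c' m else c m) = c := by
        funext m
        rw [if_neg]
        push_cast
        omega
      rw [e]
    | succ k ih =>
      refine (ih (by omega)).trans ?_
      have hne : ∀ m : ℤ, m ≠ (k : ℤ) →
          (if 0 ≤ m ∧ m < (k : ℤ) then c' m else c m)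
            = (if 0 ≤ m ∧ m < ((k + 1 : ℕ) : ℤ) then c' m else c m) := by
        intro m hm
        push_cast
        by_cases h1 : 0 ≤ m ∧ m < (k : ℤ)
        · rw [if_pos h1, if_pos ⟨h1.1, by omega⟩]
        · rw [if_neg h1, if_neg]
          omega
      have a1 : (if 0 ≤ (k : ℤ) ∧ (k : ℤ) < (k : ℤ) then c' k else c k) = c k := by simp
      have a2 : (if 0 ≤ (k : ℤ) ∧ (k : ℤ) < ((k + 1 : ℕ) : ℤ) then c' k else c k) = c' k := by
        rw [if_pos]
        push_cast
        omega
      rcases hc : c k with _ | _ <;> rcases hc' : c' k with _ | _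
      · have e : (fun m : ℤ => if 0 ≤ m ∧ m < (k : ℤ) then c' m else c m)
            = (fun m : ℤ => if 0 ≤ m ∧ m < ((k + 1 : ℕ) : ℤ) then c' m else c m) := by
          funext m
          by_cases hm : m = k
          · subst hm
            rw [a1, a2, hc, hc']
          · exact hne m hm
        rw [e]
      · exact swap_perm n hn z _ _ k (by omega) (a1.trans hc) (a2.trans hc') hne
      · exact (swap_perm n hn z _ _ k (by omega) (a2.trans hc') (a1.trans hc)
          (fun m hm => (hne m hm).symm)).symm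
      · have e : (fun m : ℤ => if 0 ≤ m ∧ m < (k : ℤ) then c' m else c m)
            = (fun m : ℤ => if 0 ≤ m ∧ m < ((k + 1 : ℕ) : ℤ) then c' m else c m) := by
          funext m
          by_cases hm : m = k
          · subst hm
            rw [a1, a2, hc, hc']
          · exact hne m hm
        rw [e]
  have h1 := step n le_rfl
  have h2 := win_infl_congr n (z := z) (c := fun m => if 0 ≤ m ∧ m < (n : ℤ) then c' m else c m)
    (z' := z) (c' := c') (i := 0) (i' := 0) (N := 1) (fun _ _ _ => rfl) (by
      intro m hm0 hm1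
      have hm1' : m < n := by simpa using hm1
      simp only [mul_zero, zero_add]
      rw [if_pos ⟨hm0, hm1'⟩])
  simp only [zero_mul, one_mul] at h2
  rw [h2]
  exact h1

theorem theta_compatible (n : ℕ) [NeZero n] (hn : 2 ≤ n) : (theta n).Compatible := by
  rintro a _ ⟨c, rfl⟩ _ ⟨c', rfl⟩ b
  exact (perm_all n hn _ c c').count_eq b

theorem theta_nonDegenerate (n : ℕ) [NeZero n] (hn : 2 ≤ n) : (theta n).NonDegenerate := by
  have hlen := len_gt n
  refine ⟨fun _ => false, ?_⟩
  change 1 < _
  rw [Set.one_lt_ncard_iff ((theta n).finite_img _)]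
  refine ⟨_, _, ⟨fun _ => false, rfl⟩, ⟨fun _ => true, rfl⟩, fun h => ?_⟩
  have h1 := grp_win_inj n h (3 * n - 1 : ℕ) (by positivity) (by
    have : 3 * n - 1 < n * len n := by nlinarith [Nat.sub_le (3 * n) 1]
    exact_mod_cast this)
  have h2 := infl_apply n (flat n fun _ : ℤ => (fun _ : Fin n => false)) (fun _ => false) 0 (3 * n - 1)
    (by omega)
  have h3 := infl_apply n (flat n fun _ : ℤ => (fun _ : Fin n => false)) (fun _ => true) 0 (3 * n - 1)
    (by omega)
  rw [blk_fst hn] at h2 h3
  rw [mul_zero, zero_add] at h1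
  rw [zero_mul, zero_add] at h2 h3
  rw [h2, h3] at h1
  exact Bool.noConfusion h1

theorem mem_biImage (n : ℕ) [NeZero n] (y : ℤ → Bool) (x : ℤ → Fin n → Bool) :
    x ∈ (theta n).biImage (grp n y) ↔ ∃ c : ℤ → Bool, x = grp n (infl n y c) := by
  have hn0 : (0 : ℤ) < n := by exact_mod_cast Nat.pos_of_ne_zero (NeZero.ne n)
  have hL : (0 : ℤ) < len n := by exact_mod_cast len_pos n
  constructor
  · rintro ⟨u, s, hu, hs0, hs, hx⟩
    choose c hc using fun i => (mem_img n y i (u i)).1 (hu i)
    have hlen : ∀ i, (u i).length = len n := fun i => by rw [hc i, win_length]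
    have hsi : ∀ i, s i = i * len n := by
      intro i
      induction i using Int.induction_on with
      | zero => simp [hs0]
      | succ i ih => rw [hs, ih, hlen]; ring
      | pred i ih =>
        have := hs (-(i : ℤ) - 1)
        rw [sub_add_cancel, ih, hlen] at this
        linarith
    refine ⟨fun m => c (m / n) m, ?_⟩
    funext m
    obtain ⟨i, t, ht, rfl⟩ : ∃ (i : ℤ) (t : ℕ), t < len n ∧ m = i * len n + t := by
      have h1 := Int.emod_nonneg m hL.ne'
      have h2 := Int.emod_lt_of_pos m hL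
      refine ⟨m / len n, (m % len n).toNat, by omega, ?_⟩
      rw [Int.toNat_of_nonneg h1]
      have := Int.mul_ediv_add_emod m (len n)
      linarith
    have h1 := hx i t (by rw [hlen]; exact ht)
    rw [hsi] at h1
    rw [h1]
    have h2 : (u i)[t]'(by rw [hlen]; exact ht) = grp n (infl n y (c i)) (i * len n + t) := by
      simp only [hc i, win, List.getElem_ofFn]
    rw [h2]
    funext l
    have hl : ((l : ℕ) : ℤ) < n := by exact_mod_cast l.2
    have ht' : (t : ℤ) < len n := by exact_mod_cast ht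
    simp only [grp]
    apply infl_congr n (k := 0) (by ring)
    · rw [add_zero]
    · rw [add_zero]
      have e : ((n : ℤ) * (i * len n + t) + (l : ℤ)) / (len n : ℤ)
          = n * i + (n * t + l) / (len n : ℤ) := by
        rw [show (n : ℤ) * (i * len n + t) + (l : ℤ) = (n * t + l) + (n * i) * len n by ring,
          Int.add_mul_ediv_right _ _ hL.ne']
        ring
      have h0 : 0 ≤ ((n : ℤ) * t + l) / (len n : ℤ) := Int.ediv_nonneg (by positivity) hL.le
      have h1 : ((n : ℤ) * t + l) / (len n : ℤ) < n := by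
        apply Int.ediv_lt_of_lt_mul hL
        have : (t : ℤ) + 1 ≤ len n := ht'
        nlinarith
      have e2 : (n * i + (n * t + l) / (len n : ℤ)) / (n : ℤ) = i := by
        rw [Int.mul_add_ediv_left _ _ hn0.ne', Int.ediv_eq_zero_of_lt h0 h1, add_zero]
      rw [e, e2]
  · rintro ⟨c, rfl⟩
    refine ⟨fun i => win (grp n (infl n y c)) (i * len n) (len n), fun i => i * len n, ?_, ?_, ?_, ?_⟩
    · intro i
      exact (mem_img n y i _).2 ⟨c, rfl⟩
    · simp
    · intro i
      simp only [win_length]
      ring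
    · intro i j h
      simp only [win, List.getElem_ofFn]

theorem marker (n : ℕ) (hn : 2 ≤ n) (y c : ℤ → Bool) (m : ℤ) :
    (∀ t : ℕ, t < 2 * n → infl n y c (m + t) = true) ↔ (len n : ℤ) ∣ m := by
  have hL : (0 : ℤ) < len n := by exact_mod_cast len_pos n
  have hlen := len_gt n
  constructor
  · intro h
    by_contra hdvd
    obtain ⟨q, s, hs, rfl⟩ : ∃ (q : ℤ) (s : ℕ), s < len n ∧ m = q * len n + s := by
      have h1 := Int.emod_nonneg m hL.ne'
      have h2 := Int.emod_lt_of_pos m hL
      refine ⟨m / len n, (m % len n).toNat, by omega, ?_⟩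
      rw [Int.toNat_of_nonneg h1]
      have := Int.mul_ediv_add_emod m (len n)
      linarith
    have hs0 : s ≠ 0 := by
      rintro rfl
      apply hdvd
      simp
    have bad : ∀ t : ℕ, t < 2 * n → s + t < len n → blk n (y q) (c q) (s + t) = false → False := by
      intro t ht hst hb
      have h1 := h t ht
      rw [show q * (len n : ℤ) + s + t = q * len n + ((s + t : ℕ) : ℤ) by push_cast; ring,
        infl_apply n y c q _ hst, hb] at h1
      exact Bool.noConfusion h1
    by_cases c1 : s ≤ 2 * n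
    · apply bad (2 * n - s) (by omega) (by omega)
      rw [show s + (2 * n - s) = 2 * n by omega]
      exact blk_false le_rfl (by omega) (by omega) (by omega)
    by_cases c2 : s ≤ 4 * n
    · apply bad (4 * n - s) (by omega) (by omega)
      rw [show s + (4 * n - s) = 4 * n by omega]
      exact blk_false (by omega) (by omega) (by omega) (by omega)
    by_cases c3 : s ≤ 5 * n + 1
    · apply bad (5 * n + 1 - s) (by omega) (by omega)
      rw [show s + (5 * n + 1 - s) = 5 * n + 1 by omega]
      unfold blk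
      rw [if_neg (by omega), if_neg (by omega), if_neg (by omega), if_neg (by omega),
        if_neg (by omega)]
    by_cases c4 : s < 5 * n + 2 + n * (n + 1) * 2 ^ n
    · obtain ⟨w, hw⟩ : ∃ w, w = s - (5 * n + 2) := ⟨_, rfl⟩
      have hsw : s = 5 * n + 2 + w := by omega
      have hw1 : w < (n * 2 ^ n) * (n + 1) := by
        have : n * (n + 1) * 2 ^ n = (n * 2 ^ n) * (n + 1) := by ring
        omega
      have hq : w / (n + 1) < n * 2 ^ n := Nat.div_lt_of_lt_mul (by linarith)
      have hdm := Nat.div_add_mod w (n + 1)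
      have hml := Nat.mod_lt w (by omega : 0 < n + 1)
      have hle : (n + 1) * (w / (n + 1) + 1) ≤ (n + 1) * (n * 2 ^ n) :=
        Nat.mul_le_mul_left _ hq
      have e1 : (n + 1) * (w / (n + 1) + 1) = (n + 1) * (w / (n + 1)) + (n + 1) := by ring
      have e2 : (n + 1) * (n * 2 ^ n) = n * (n + 1) * 2 ^ n := by ring
      have hlt : 5 * n + 2 + ((n + 1) * (w / (n + 1)) + n) < len n := by
        unfold len
        omega
      apply bad (n - w % (n + 1)) (by omega) (by omega)
      have e3 : s + (n - w % (n + 1)) = 5 * n + 2 + ((n + 1) * (w / (n + 1)) + n) := by omega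
      rw [e3]
      unfold blk
      have e4 : 5 * n + 2 + ((n + 1) * (w / (n + 1)) + n) - (5 * n + 2)
          = (n + 1) * (w / (n + 1)) + n := by omega
      have e5 : ((n + 1) * (w / (n + 1)) + n) % (n + 1) = n := by
        rw [Nat.mul_add_mod, Nat.mod_eq_of_lt (by omega)]
      rw [if_neg (by omega), if_neg (by omega), if_neg (by omega), if_neg (by omega), e4, e5,
        if_neg (by omega)]
    · have hl : len n = 6 * n + 1 + n * (n + 1) * 2 ^ n := rfl
      apply bad 0 (by omega) (by omega)
      rw [add_zero]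
      unfold blk
      rw [if_neg (by omega), if_neg (by omega), if_neg (by omega), if_neg (by omega),
        if_neg (by omega)]
  · rintro ⟨q, rfl⟩ t ht
    rw [mul_comm, infl_apply n y c q t (by omega)]
    unfold blk
    rw [if_pos ht]

theorem infl_slot (n : ℕ) (hn : 2 ≤ n) (y c : ℤ → Bool) (q : ℤ) :
    infl n y c (q * len n + 5 * n) = y q := by
  have hlen := len_gt n
  have h := infl_apply n y c q (5 * n) (by omega)
  push_cast at h
  rw [h]
  unfold blk
  rw [if_neg (by omega), if_neg (by omega), if_neg (by omega), if_pos rfl]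

theorem infl_choice (n : ℕ) (hn : 2 ≤ n) (y c : ℤ → Bool) (q : ℤ) :
    infl n y c (q * len n + (3 * n - 1)) = c q := by
  have hlen := len_gt n
  have h := infl_apply n y c q (3 * n - 1) (by omega)
  push_cast [Nat.cast_sub (by omega : 1 ≤ 3 * n)] at h
  rw [h]
  exact blk_fst hn _ _

theorem len_coprime (n : ℕ) : IsCoprime (len n : ℤ) (n : ℤ) := by
  refine ⟨1, -(6 + (n + 1) * 2 ^ n), ?_⟩
  unfold len
  push_cast
  ring

theorem theta_unique (n : ℕ) [NeZero n] (hn : 2 ≤ n) {z y c y' c' : ℤ → Bool} {k k' : ℕ}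
    (hk : k < len n) (hk' : k' < len n) (h : ∀ m : ℤ, z (m - n * k) = infl n y c m)
    (h' : ∀ m : ℤ, z (m - n * k') = infl n y' c' m) : k = k' ∧ y = y' := by
  have hL : (0 : ℤ) < len n := by exact_mod_cast len_pos n
  have h1 : (len n : ℤ) ∣ (n * k' - n * k) := by
    rw [← marker n hn y' c']
    intro t ht
    rw [← h' _]
    have h2 := (marker n hn y c 0).2 (dvd_zero _) t ht
    rw [← h _] at h2
    rw [← h2]
    congr 1
    ring
  have h2 : (len n : ℤ) ∣ ((k' : ℤ) - k) := by
    have e : (n : ℤ) * k' - n * k = n * (k' - k) := by ring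
    rw [e] at h1
    exact (len_coprime n).dvd_of_dvd_mul_left h1
  have h3 : k = k' := by
    have h4 : (k' : ℤ) - k = 0 := by
      apply Int.eq_zero_of_abs_lt_dvd h2
      rw [abs_lt]
      constructor <;> omega
    omega
  subst h3
  refine ⟨rfl, ?_⟩
  funext q
  have h4 := infl_slot n hn y c q
  have h5 := infl_slot n hn y' c' q
  rw [← h] at h4
  rw [← h'] at h5
  rw [← h4, ← h5]

theorem legal_of_infix {A : Type} (θ : RandomSubstitution A) {v w : List A} (h : v <:+: w)
    (hw : θ.Legal w) : θ.Legal v := by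
  obtain ⟨a, p, u, hu, h1⟩ := hw
  exact ⟨a, p, u, hu, h.trans h1⟩

theorem exists_phase (n : ℕ) [NeZero n] (hn : 2 ≤ n) {z : ℤ → Bool}
    (hz : grp n z ∈ (theta n).subshift) (R : ℕ) :
    ∃ k : ℕ, k < len n ∧ ∃ v c : ℤ → Bool,
      (∀ m : ℤ, -(n * R * len n) ≤ m → m < n * R * len n → z (m - n * k) = infl n v c m) ∧
      (theta n).Legal (win (grp n v) (-R) (2 * R)) := by
  have hn0 : (0 : ℤ) < n := by exact_mod_cast (by omega : 0 < n)
  have hL : (0 : ℤ) < len n := by exact_mod_cast len_pos n
  have hlen := len_gt n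
  have h := hz (-((R + 1) * len n)) (2 * (R + 1) * len n)
  change (theta n).Legal (win (grp n z) (-((R + 1) * len n)) (2 * (R + 1) * len n)) at h
  obtain ⟨a, p, u, hu, hin⟩ := h
  rcases p with _ | p
  · exfalso
    obtain ⟨v, rfl⟩ := power_eq n 0 a u hu
    obtain ⟨j, hj, -⟩ := infix_win hin
    rw [win_length, pow_zero] at hj
    nlinarith [Nat.zero_le R]
  · have hu' := hu
    simp only [RandomSubstitution.power, RandomSubstitution.onSet, Set.mem_iUnion] at hu'
    obtain ⟨V, hV, hWV⟩ := hu'
    obtain ⟨v0, rfl⟩ := power_eq n p a V hV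
    obtain ⟨c0, rfl⟩ := (mem_onWord n v0 0 _ _).1 hWV
    obtain ⟨j, hj, hw⟩ := infix_win hin
    rw [win_length] at hj hw
    obtain ⟨J, k, hk, rfl⟩ : ∃ J k : ℕ, k < len n ∧ j = J * len n + k :=
      ⟨j / len n, j % len n, Nat.mod_lt _ (len_pos n), by rw [mul_comm]; exact (Nat.div_add_mod _ _).symm⟩
    have hJ : J + 2 * (R + 1) ≤ len n ^ p := by
      have : (J + 2 * (R + 1)) * len n ≤ len n ^ p * len n := by nlinarith
      exact Nat.le_of_mul_le_mul_right this (len_pos n)
    refine ⟨k, hk, fun m => v0 (m + n * (J + R + 1)), fun m => c0 (m + n * (J + R + 1)), ?_, ?_⟩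
    · intro m hm0 hm1
      have hkL : (k : ℤ) < len n := by exact_mod_cast hk
      have hnk : (n : ℤ) * k < n * len n := by nlinarith
      have hnk0 : (0 : ℤ) ≤ n * k := by positivity
      have e1 := grp_win_inj n hw (m - n * k + n * (R + 1) * len n) (by nlinarith)
        (by push_cast; nlinarith)
      rw [show (n : ℤ) * (-((R + 1) * len n)) + (m - n * k + n * (R + 1) * len n)
        = m - n * k by ring] at e1
      rw [e1]
      symm
      apply infl_congr n (k := -(n * (J + R + 1)))
      · push_cast; ring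
      · congr 1
        ring
      · congr 1
        ring
    · refine ⟨a, p, _, hV, ?_⟩
      have e : win (grp n fun m => v0 (m + n * (J + R + 1))) (-R) (2 * R)
          = win (grp n v0) (0 + ((J + 1 : ℕ) : ℤ)) (2 * R) := by
        apply win_congr
        intro t _ _
        funext l
        simp only [grp]
        congr 1
        push_cast
        ring
      rw [e]
      exact win_infix _ _ (by omega)

theorem exists_phase_all (n : ℕ) [NeZero n] (hn : 2 ≤ n) {z : ℤ → Bool}
    (hz : grp n z ∈ (theta n).subshift) :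
    ∃ k : ℕ, k < len n ∧ ∀ R : ℕ, ∃ v c : ℤ → Bool,
      (∀ m : ℤ, -(n * R * len n) ≤ m → m < n * R * len n → z (m - n * k) = infl n v c m) ∧
      (theta n).Legal (win (grp n v) (-R) (2 * R)) := by
  have hn0 : (0 : ℤ) < n := by exact_mod_cast (by omega : 0 < n)
  have hL : (0 : ℤ) < len n := by exact_mod_cast len_pos n
  by_contra hcon
  push Not at hcon
  choose! R hR using hcon
  obtain ⟨k, hk, v, c, h1, h2⟩ := exists_phase n hn hz ((Finset.range (len n)).sup R)
  have hle : R k ≤ (Finset.range (len n)).sup R := Finset.le_sup (Finset.mem_range.2 hk)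
  have hle' : (R k : ℤ) ≤ ((Finset.range (len n)).sup R : ℕ) := by exact_mod_cast hle
  refine hR k hk v c ?_ ?_
  · intro m hm0 hm1
    have h3 : (n : ℤ) * R k * len n ≤ n * ((Finset.range (len n)).sup R : ℕ) * len n := by
      apply mul_le_mul_of_nonneg_right _ hL.le
      exact mul_le_mul_of_nonneg_left hle' hn0.le
    exact h1 m (by linarith) (by linarith)
  · obtain ⟨d, hd⟩ := Nat.exists_eq_add_of_le hle
    refine legal_of_infix _ ?_ h2
    have e : win (grp n v) (-(R k : ℤ)) (2 * R k)
        = win (grp n v) (-(((Finset.range (len n)).sup R : ℕ) : ℤ) + (d : ℤ)) (2 * R k) := by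
      rw [hd]
      congr 1
      push_cast
      ring
    rw [e]
    exact win_infix _ _ (by omega)

theorem theta_recognisable (n : ℕ) [NeZero n] (hn : 2 ≤ n) : (theta n).Recognisable := by
  have hn0 : (0 : ℤ) < n := by exact_mod_cast (by omega : 0 < n)
  have hL : (0 : ℤ) < len n := by exact_mod_cast len_pos n
  have hlen := len_gt n
  intro x hx
  obtain ⟨z, rfl⟩ : ∃ z, x = grp n z := ⟨flat n x, (grp_flat n x).symm⟩
  have conv : ∀ (k : ℕ) (y : ℤ → Bool),
      (fun i => grp n z (i - (k : ℤ))) ∈ (theta n).biImage (grp n y) ↔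
        ∃ c : ℤ → Bool, ∀ m : ℤ, z (m - n * k) = infl n y c m := by
    intro k y
    rw [mem_biImage]
    have e : (fun i => grp n z (i - (k : ℤ))) = grp n (fun m => z (m - n * k)) := by
      funext i l
      simp only [grp]
      congr 1
      ring
    rw [e]
    constructor
    · rintro ⟨c, hc⟩
      refine ⟨c, fun m => ?_⟩
      have := congrArg (flat n) hc
      rw [flat_grp, flat_grp] at this
      exact congrFun this m
    · rintro ⟨c, hc⟩
      exact ⟨c, by congr 1; funext m; exact hc m⟩
  have hlt : ∀ (k : ℕ) (y : ℤ → Fin n → Bool),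
      (∀ w ∈ (theta n).img (y 0), k < w.length) ↔ k < len n := by
    intro k y
    constructor
    · intro h
      obtain ⟨w, hw⟩ := (theta n).nonempty_img (y 0)
      have := h w hw
      obtain ⟨c, rfl⟩ := hw
      rwa [win_length] at this
    · rintro h w ⟨c, rfl⟩
      rwa [win_length]
  obtain ⟨k, hk, hall⟩ := exists_phase_all n hn hx
  set y : ℤ → Bool := fun q => z (q * len n + 5 * n - n * k) with hy
  set c : ℤ → Bool := fun q => z (q * len n + (3 * n - 1) - n * k) with hc
  -- the decoded sequence agrees with the local preimages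
  have agree : ∀ (R : ℕ) (v d : ℤ → Bool),
      (∀ m : ℤ, -(n * R * len n) ≤ m → m < n * R * len n → z (m - n * k) = infl n v d m) →
      ∀ q : ℤ, -(n * R) ≤ q → q < n * R → y q = v q ∧ c q = d q := by
    intro R v d hvd q hq0 hq1
    have hlen' : (6 : ℤ) * n < len n := by exact_mod_cast hlen
    have hn2 : (2 : ℤ) ≤ n := by exact_mod_cast hn
    have hb1 : -((n : ℤ) * R * len n) ≤ q * len n := by nlinarith
    have hb2 : q * (len n : ℤ) + len n ≤ n * R * len n := by nlinarith
    constructor
    · rw [hy]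
      dsimp only
      rw [hvd _ (by linarith) (by linarith), infl_slot n hn]
    · rw [hc]
      dsimp only
      rw [hvd _ (by linarith) (by linarith), infl_choice n hn]
  have hyc : ∀ m : ℤ, z (m - n * k) = infl n y c m := by
    intro m
    set q := m / (len n : ℤ) with hq
    have hR0 : -((n : ℤ) * ((|q| + 1).toNat : ℕ)) ≤ q ∧ q < n * ((|q| + 1).toNat : ℕ) := by
      have h1 : (((|q| + 1).toNat : ℕ) : ℤ) = |q| + 1 := Int.toNat_of_nonneg (by positivity)
      rw [h1]
      have h2 := neg_abs_le q
      have h3 := le_abs_self q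
      have h4 := abs_nonneg q
      have h5 : (1 : ℤ) ≤ n := by linarith
      constructor <;> nlinarith
    obtain ⟨v, d, hvd, -⟩ := hall (|q| + 1).toNat
    obtain ⟨hv, hd⟩ := agree _ v d hvd q hR0.1 hR0.2
    have e1 := Int.mul_ediv_add_emod m (len n)
    have e2 := Int.emod_nonneg m hL.ne'
    have e3 := Int.emod_lt_of_pos m hL
    rw [hvd m ?_ ?_]
    · unfold infl
      rw [← hq, hv, hd]
    · rw [← hq] at e1
      nlinarith [hR0.1]
    · rw [← hq] at e1
      nlinarith [hR0.2]
  have hyX : grp n y ∈ (theta n).subshift := by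
    intro i N
    change (theta n).Legal (win (grp n y) i N)
    set R := (|i| + N).toNat with hR
    have hR' : (R : ℤ) = |i| + N := Int.toNat_of_nonneg (by positivity)
    obtain ⟨v, d, hvd, hleg⟩ := hall R
    have h1 : 0 ≤ i + R := by
      have := neg_abs_le i
      omega
    obtain ⟨t, ht⟩ : ∃ t : ℕ, (t : ℤ) = i + R := ⟨(i + R).toNat, Int.toNat_of_nonneg h1⟩
    have h2 := le_abs_self i
    have e : win (grp n y) i N = win (grp n v) (-R + (t : ℤ)) N := by
      apply win_congr
      intro s hs0 hs1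
      funext l
      have hl : ((l : ℕ) : ℤ) < n := by exact_mod_cast l.2
      simp only [grp]
      rw [show (n : ℤ) * (-R + t + s) + l = n * (i + s) + l by rw [ht]; ring]
      refine (agree R v d hvd _ ?_ ?_).1
      · have : -(R : ℤ) ≤ i + s := by omega
        nlinarith
      · have : i + s + 1 ≤ R := by omega
        nlinarith
    rw [e]
    exact legal_of_infix _ (win_infix _ _ (by omega)) hleg
  refine ⟨(grp n y, k), ⟨hyX, (hlt k _).2 hk, (conv k y).2 ⟨c, hyc⟩⟩, ?_⟩
  rintro ⟨y', k'⟩ ⟨h1, h2, h3⟩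
  dsimp only at h1 h2 h3
  rw [hlt] at h2
  obtain ⟨w', rfl⟩ : ∃ w, y' = grp n w := ⟨flat n y', (grp_flat n y').symm⟩
  obtain ⟨c', hc'⟩ := (conv k' w').1 h3
  obtain ⟨e1, e2⟩ := theta_unique n hn hk h2 hyc hc'
  rw [e1, e2]

theorem theta_nonempty (n : ℕ) [NeZero n] (hn : 2 ≤ n) : (theta n).subshift.Nonempty := by
  have hlen := len_gt n
  set t : ℕ → Set (ℤ → Fin n → Bool) := fun N =>
    {x | (theta n).Legal (win x (-N) (2 * N))} with ht
  have hclosed : ∀ N, IsClosed (t N) := by
    intro N
    have e : t N = (fun x : ℤ → Fin n → Bool => fun j : Fin (2 * N) => x (-N + (j : ℤ))) ⁻¹'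
        {w | (theta n).Legal (List.ofFn w)} := rfl
    rw [e]
    apply IsClosed.preimage
    · exact continuous_pi fun j => continuous_apply _
    · exact isClosed_discrete _
  have hanti : ∀ N, t (N + 1) ⊆ t N := by
    intro N x hx
    refine legal_of_infix _ ?_ hx
    have e : win x (-(N : ℤ)) (2 * N) = win x (-((N + 1 : ℕ) : ℤ) + ((1 : ℕ) : ℤ)) (2 * N) := by
      congr 1
      push_cast
      ring
    rw [e]
    exact win_infix _ _ (by omega)
  have hne : ∀ N, (t N).Nonempty := by
    intro N
    have hpow : ∀ p : ℕ, ∃ z : ℤ → Bool, win (grp n z) 0 (len n ^ p) ∈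
        (theta n).power p (fun _ => false) := by
      intro p
      induction p with
      | zero =>
        refine ⟨flat n fun _ _ => false, ?_⟩
        rw [grp_flat]
        simp [win, RandomSubstitution.power]
      | succ p ih =>
        obtain ⟨z, hz⟩ := ih
        refine ⟨infl n z (fun _ => false), ?_⟩
        simp only [RandomSubstitution.power, RandomSubstitution.onSet, Set.mem_iUnion]
        refine ⟨_, hz, ?_⟩
        rw [mem_onWord]
        refine ⟨fun _ => false, ?_⟩
        rw [zero_mul, ← pow_succ]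
    obtain ⟨z, hz⟩ := hpow (2 * N)
    refine ⟨fun i => grp n z (i + N), _, _, _, hz, ?_⟩
    have hp : 2 * N ≤ len n ^ (2 * N) := (Nat.lt_pow_self (by omega)).le
    have e : win (fun i => grp n z (i + N)) (-(N : ℤ)) (2 * N)
        = win (grp n z) (0 + ((0 : ℕ) : ℤ)) (2 * N) := by
      apply win_congr
      intro s _ _
      congr 1
      push_cast
      ring
    rw [e]
    exact win_infix _ _ (by omega)
  obtain ⟨x, hx⟩ := IsCompact.nonempty_iInter_of_sequence_nonempty_isCompact_isClosed t hanti hne
    ((hclosed 0).isCompact) hclosed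
  refine ⟨x, fun i N => ?_⟩
  rw [Set.mem_iInter] at hx
  set R := (|i| + N).toNat with hR
  have hR' : (R : ℤ) = |i| + N := Int.toNat_of_nonneg (by positivity)
  have h1 : 0 ≤ i + R := by
    have := neg_abs_le i
    omega
  obtain ⟨s, hs⟩ : ∃ s : ℕ, (s : ℤ) = i + R := ⟨(i + R).toNat, Int.toNat_of_nonneg h1⟩
  have h2 := le_abs_self i
  change (theta n).Legal (win x i N)
  have e : win x i N = win x (-(R : ℤ) + (s : ℤ)) N := by
    rw [hs]
    congr 1
    ring
  rw [e]
  exact legal_of_infix _ (win_infix _ _ (by omega)) (hx R)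

end Example

end Pool.Agent.Helper92.RS
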